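import Mathlib

set_option autoImplicit false

universe u

namespace Pool.Agent.H15.ProjRect

/-- Four distinct points, no three of them on a common member of `L`. -/
def Quadrangle {P : Type u} (L : Set (Set P)) (a b c d : P) : Prop :=
  a ≠ b ∧ a ≠ c ∧ a ≠ d ∧ b ≠ c ∧ b ≠ d ∧ c ≠ d ∧
    ∀ l ∈ L, ¬ (a ∈ l ∧ b ∈ l ∧ c ∈ l) ∧ ¬ (a ∈ l ∧ b ∈ l ∧ d ∈ l) ∧
      ¬ (a ∈ l ∧ c ∈ l ∧ d ∈ l) ∧ ¬ (b ∈ l ∧ c ∈ l ∧ d ∈ l)

/-- A projective rectangle: points `P`, lines are sets of points, `D` is the distinguished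
point.  The lines through `D` are special, the other lines are ordinary. -/
structure ProjectiveRectangle (P : Type u) where
  lines : Set (Set P)
  D : P
  A1 : ∀ p q : P, p ≠ q → ∃! l : Set P, l ∈ lines ∧ p ∈ l ∧ q ∈ l
  A2 : ∃ a b c d : P, Quadrangle lines a b c d
  A3 : ∀ l ∈ lines, ∃ x ∈ l, ∃ y ∈ l, ∃ z ∈ l, x ≠ y ∧ x ≠ z ∧ y ≠ z
  A5 : ∀ s ∈ lines, D ∈ s → ∀ l ∈ lines, l ≠ s → ∃! p : P, p ∈ s ∧ p ∈ l
  A6 : ∀ l₁ ∈ lines, ∀ l₂ ∈ lines, D ∉ l₁ → D ∉ l₂ → (∃ x, x ∈ l₁ ∧ x ∈ l₂) →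
    ∀ l₃ ∈ lines, ∀ l₄ ∈ lines, l₃ ≠ l₄ →
    ∀ a b c d : P, a ∈ l₁ → a ∈ l₃ → b ∈ l₂ → b ∈ l₃ → c ∈ l₁ → c ∈ l₄ → d ∈ l₂ → d ∈ l₄ →
      a ≠ b → a ≠ c → a ≠ d → b ≠ c → b ≠ d → c ≠ d → ∃ x, x ∈ l₃ ∧ x ∈ l₄

/-- `(S, L)` is a projective plane: point set `S`, lines the members of `L`. -/
structure IsProjectivePlane {P : Type u} (S : Set P) (L : Set (Set P)) : Prop where
  subset : ∀ l ∈ L, l ⊆ S
  join : ∀ p ∈ S, ∀ q ∈ S, p ≠ q → ∃! l : Set P, l ∈ L ∧ p ∈ l ∧ q ∈ l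
  meet : ∀ l ∈ L, ∀ m ∈ L, l ≠ m → ∃! p : P, p ∈ l ∧ p ∈ m
  quad : ∃ a ∈ S, ∃ b ∈ S, ∃ c ∈ S, ∃ d ∈ S, Quadrangle L a b c d

namespace ProjectiveRectangle

variable {P : Type u} (R : ProjectiveRectangle P)

/-- The sets `l ∩ S` with `l` a line and at least two points in `l ∩ S`. -/
def inducedLines (S : Set P) : Set (Set P) :=
  {m | ∃ l ∈ R.lines, m = l ∩ S ∧ m.Nontrivial}

/-- A projective subplane. -/
def IsSubplane (S : Set P) : Prop := IsProjectivePlane S (R.inducedLines S)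

/-- A plane of the projective rectangle: a projective subplane maximal under inclusion. -/
def IsPlane (S : Set P) : Prop := Maximal R.IsSubplane S

/-- The projective rectangle is nontrivial: it is not a projective plane. -/
def IsNontrivial : Prop := ¬ IsProjectivePlane (Set.univ : Set P) R.lines

end ProjectiveRectangle

end Pool.Agent.H15.ProjRect
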