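import Pool.Agent.H15.ProjRect.Defs

set_option autoImplicit false

universe u

namespace Pool.Agent.H15.ProjRect

namespace ProjectiveRectangle

variable {P : Type u} (R : ProjectiveRectangle P)

/-- ordinary lines -/
def Ord (l : Set P) : Prop := l ∈ R.lines ∧ R.D ∉ l

variable {R}

theorem line_eq {l m : Set P} (hl : l ∈ R.lines) (hm : m ∈ R.lines) {p q : P} (hpq : p ≠ q)
    (h1 : p ∈ l) (h2 : q ∈ l) (h3 : p ∈ m) (h4 : q ∈ m) : l = m :=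
  (R.A1 p q hpq).unique ⟨hl, h1, h2⟩ ⟨hm, h3, h4⟩

theorem pt_eq {l m : Set P} (hl : l ∈ R.lines) (hm : m ∈ R.lines) (hne : l ≠ m) {p q : P}
    (h1 : p ∈ l) (h2 : p ∈ m) (h3 : q ∈ l) (h4 : q ∈ m) : p = q := by
  by_contra h
  exact hne (line_eq hl hm h h1 h3 h2 h4)

theorem exists_line {p q : P} (h : p ≠ q) : ∃ l ∈ R.lines, p ∈ l ∧ q ∈ l := by
  obtain ⟨l, ⟨h1, h2, h3⟩, -⟩ := R.A1 p q h
  exact ⟨l, h1, h2, h3⟩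

theorem special_meet {s l : Set P} (hs : s ∈ R.lines) (hD : R.D ∈ s) (hl : R.Ord l) :
    ∃ x, x ∈ s ∧ x ∈ l := by
  obtain ⟨x, hx, -⟩ := R.A5 s hs hD l hl.1 (fun h => hl.2 (h ▸ hD))
  exact ⟨x, hx⟩

/-- The Veblen axiom in a form with few side conditions. -/
theorem veblen {l₁ l₂ l₃ l₄ : Set P} (o₁ : R.Ord l₁) (o₂ : R.Ord l₂) (h₃ : l₃ ∈ R.lines)
    (h₄ : l₄ ∈ R.lines) {x : P} (x₁ : x ∈ l₁) (x₂ : x ∈ l₂) {a b c d : P} (a₁ : a ∈ l₁)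
    (a₃ : a ∈ l₃) (b₂ : b ∈ l₂) (b₃ : b ∈ l₃) (c₁ : c ∈ l₁) (c₄ : c ∈ l₄) (d₂ : d ∈ l₂)
    (d₄ : d ∈ l₄) (hab : a ≠ b) (hcd : c ≠ d) : ∃ x, x ∈ l₃ ∧ x ∈ l₄ := by
  by_cases h34 : l₃ = l₄
  · exact ⟨a, a₃, h34 ▸ a₃⟩
  by_cases hac : a = c
  · exact ⟨a, a₃, hac ▸ c₄⟩
  by_cases had : a = d
  · exact ⟨a, a₃, had ▸ d₄⟩
  by_cases hbc : b = c
  · exact ⟨b, b₃, hbc ▸ c₄⟩
  by_cases hbd : b = d
  · exact ⟨b, b₃, hbd ▸ d₄⟩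
  exact R.A6 l₁ o₁.1 l₂ o₂.1 o₁.2 o₂.2 ⟨x, x₁, x₂⟩ l₃ h₃ l₄ h₄ h34 a b c d a₁ a₃ b₂ b₃ c₁ c₄ d₂ d₄
    hab hac had hbc hbd hcd

/-! ### The plane spanned by two intersecting ordinary lines -/

/-- two distinct ordinary lines through `a` -/
structure Cross (R : ProjectiveRectangle P) (l₁ l₂ : Set P) (a : P) : Prop where
  o₁ : R.Ord l₁
  o₂ : R.Ord l₂
  ne : l₁ ≠ l₂
  a₁ : a ∈ l₁
  a₂ : a ∈ l₂

/-- ordinary lines meeting `l₁` and `l₂` but not containing `a` -/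
def Tr (R : ProjectiveRectangle P) (l₁ l₂ : Set P) (a : P) : Set (Set P) :=
  {k | R.Ord k ∧ a ∉ k ∧ (∃ y, y ∈ l₁ ∧ y ∈ k) ∧ ∃ z, z ∈ l₂ ∧ z ∈ k}

/-- ordinary lines of the plane spanned by `l₁` and `l₂` -/
def Hl (R : ProjectiveRectangle P) (l₁ l₂ : Set P) (a : P) : Set (Set P) :=
  {h | h ∈ R.Tr l₁ l₂ a ∨ (R.Ord h ∧ a ∈ h ∧ ∃ k ∈ R.Tr l₁ l₂ a, ∃ x, x ∈ h ∧ x ∈ k)}

/-- the plane spanned by `l₁` and `l₂` -/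
def Pl (R : ProjectiveRectangle P) (l₁ l₂ : Set P) (a : P) : Set P :=
  {x | x = R.D ∨ ∃ h ∈ R.Hl l₁ l₂ a, x ∈ h}

namespace Cross

variable {l₁ l₂ : Set P} {a : P}

theorem symm (C : R.Cross l₁ l₂ a) : R.Cross l₂ l₁ a := ⟨C.o₂, C.o₁, C.ne.symm, C.a₂, C.a₁⟩

theorem eq_a (C : R.Cross l₁ l₂ a) {x : P} (h1 : x ∈ l₁) (h2 : x ∈ l₂) : x = a :=
  pt_eq C.o₁.1 C.o₂.1 C.ne h1 h2 C.a₁ C.a₂

theorem tr_comm : R.Tr l₁ l₂ a = R.Tr l₂ l₁ a := by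
  ext k
  constructor
  · rintro ⟨h1, h2, h3, h4⟩
    exact ⟨h1, h2, h4, h3⟩
  · rintro ⟨h1, h2, h3, h4⟩
    exact ⟨h1, h2, h4, h3⟩

theorem hl_comm : R.Hl l₁ l₂ a = R.Hl l₂ l₁ a := by
  unfold Hl
  rw [tr_comm]

theorem hl_ord {h : Set P} (hh : h ∈ R.Hl l₁ l₂ a) : R.Ord h := by
  rcases hh with hh | hh
  · exact hh.1
  · exact hh.1

/-- there is a transversal -/
theorem tr_nonempty (C : R.Cross l₁ l₂ a) : ∃ k, k ∈ R.Tr l₁ l₂ a := by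
  -- a point `y ≠ a` of `l₁`
  obtain ⟨y, hy, hya⟩ : ∃ y ∈ l₁, y ≠ a := by
    obtain ⟨x, hx, y, hy, z, hz, hxy, -, -⟩ := R.A3 l₁ C.o₁.1
    by_cases h : x = a
    · exact ⟨y, hy, fun h' => hxy (h.trans h'.symm)⟩
    · exact ⟨x, hx, h⟩
  have hyD : y ≠ R.D := fun h => C.o₁.2 (h ▸ hy)
  obtain ⟨s, hs, hDs, hys⟩ := R.exists_line (Ne.symm hyD)
  -- a point `z ≠ a` of `l₂` off the line `Dy`
  obtain ⟨z, hz, hza, hzs⟩ : ∃ z ∈ l₂, z ≠ a ∧ z ∉ s := by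
    have hsl : s ≠ l₂ := fun h => C.o₂.2 (h ▸ hDs)
    by_contra hcon
    push Not at hcon
    obtain ⟨x, hx, y', hy', z, hz, hxy, hxz, hyz⟩ := R.A3 l₂ C.o₂.1
    have key : ∀ u ∈ l₂, ∀ v ∈ l₂, u ≠ a → v ≠ a → u = v := fun u hu v hv hua hva =>
      pt_eq hs C.o₂.1 hsl (hcon u hu hua) hu (hcon v hv hva) hv
    by_cases h1 : x = a
    · have hy1 : y' ≠ a := fun h => hxy (h1.trans h.symm)
      have hz1 : z ≠ a := fun h => hxz (h1.trans h.symm)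
      exact hyz (key _ hy' _ hz hy1 hz1)
    · by_cases h2 : y' = a
      · have hz1 : z ≠ a := fun h => hyz (h2.trans h.symm)
        exact hxz (key _ hx _ hz h1 hz1)
      · exact hxy (key _ hx _ hy' h1 h2)
  have hyz : y ≠ z := fun h => hzs (h ▸ hys)
  obtain ⟨k, hk, hyk, hzk⟩ := R.exists_line hyz
  refine ⟨k, ⟨hk, fun hD => hzs ?_⟩, fun hak => ?_, ⟨y, hy, hyk⟩, ⟨z, hz, hzk⟩⟩
  · rw [line_eq hs hk hyD hys hDs hyk hD]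
    exact hzk
  · have h1 : k = l₁ := line_eq hk C.o₁.1 hya hyk hak hy C.a₁
    exact hza (C.eq_a (h1 ▸ hzk) hz)

theorem tr_meet_tr (C : R.Cross l₁ l₂ a) {k k' : Set P} (hk : k ∈ R.Tr l₁ l₂ a)
    (hk' : k' ∈ R.Tr l₁ l₂ a) : ∃ x, x ∈ k ∧ x ∈ k' := by
  obtain ⟨ok, hak, ⟨y, hy, hyk⟩, ⟨z, hz, hzk⟩⟩ := hk
  obtain ⟨ok', hak', ⟨y', hy', hyk'⟩, ⟨z', hz', hzk'⟩⟩ := hk'
  have hyz : y ≠ z := fun h => hak (C.eq_a hy (h ▸ hz) ▸ hyk)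
  have hyz' : y' ≠ z' := fun h => hak' (C.eq_a hy' (h ▸ hz') ▸ hyk')
  exact veblen C.o₁ C.o₂ ok.1 ok'.1 C.a₁ C.a₂ hy hyk hz hzk hy' hyk' hz' hzk' hyz hyz'

theorem a_meet_tr (C : R.Cross l₁ l₂ a) {h k k' : Set P} (oh : R.Ord h) (hah : a ∈ h)
    (hk : k ∈ R.Tr l₁ l₂ a) {x : P} (hxh : x ∈ h) (hxk : x ∈ k) (hk' : k' ∈ R.Tr l₁ l₂ a) :
    ∃ x, x ∈ h ∧ x ∈ k' := by
  obtain ⟨c, hck, hck'⟩ := C.tr_meet_tr hk hk'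
  obtain ⟨ok, hak, ⟨y, hy, hyk⟩, ⟨z, hz, hzk⟩⟩ := hk
  obtain ⟨ok', hak', ⟨y', hy', hyk'⟩, ⟨z', hz', hzk'⟩⟩ := hk'
  have hxa : x ≠ a := fun h => hak (h ▸ hxk)
  by_cases hc2 : c ∈ l₂
  · have hc1 : c ∉ l₁ := fun h => hak (C.eq_a h hc2 ▸ hck)
    have hcy : c ≠ y' := fun h => hc1 (h ▸ hy')
    exact veblen ok C.o₁ oh.1 ok'.1 hyk hy hxk hxh C.a₁ hah hck hck' hy' hyk' hxa hcy
  · have hcz : c ≠ z' := fun h => hc2 (h ▸ hz')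
    exact veblen ok C.o₂ oh.1 ok'.1 hzk hz hxk hxh C.a₂ hah hck hck' hz' hzk' hxa hcz

theorem hl_meet (C : R.Cross l₁ l₂ a) {h h' : Set P} (hh : h ∈ R.Hl l₁ l₂ a)
    (hh' : h' ∈ R.Hl l₁ l₂ a) : ∃ x, x ∈ h ∧ x ∈ h' := by
  rcases hh with hh | ⟨oh, hah, k, hk, x, hxh, hxk⟩
  · rcases hh' with hh' | ⟨oh', hah', k', hk', x', hxh', hxk'⟩
    · exact C.tr_meet_tr hh hh'
    · obtain ⟨w, h1, h2⟩ := C.a_meet_tr oh' hah' hk' hxh' hxk' hh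
      exact ⟨w, h2, h1⟩
  · rcases hh' with hh' | ⟨oh', hah', k', hk', x', hxh', hxk'⟩
    · exact C.a_meet_tr oh hah hk hxh hxk hh'
    · exact ⟨a, hah, hah'⟩

theorem l₁_mem (C : R.Cross l₁ l₂ a) : l₁ ∈ R.Hl l₁ l₂ a := by
  obtain ⟨k, hk⟩ := C.tr_nonempty
  obtain ⟨y, hy, hyk⟩ := hk.2.2.1
  exact Or.inr ⟨C.o₁, C.a₁, k, hk, y, hy, hyk⟩

theorem l₂_mem (C : R.Cross l₁ l₂ a) : l₂ ∈ R.Hl l₁ l₂ a := by
  rw [hl_comm]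
  exact C.symm.l₁_mem

/-- auxiliary: a line joining two points of the plane meets the lines of the plane which
miss the intersection point -/
theorem star_meet (C : R.Cross l₁ l₂ a) {k k' g h : Set P} (hk : k ∈ R.Hl l₁ l₂ a)
    (hk' : k' ∈ R.Hl l₁ l₂ a) (hne : k ≠ k') {c x x' : P} (hck : c ∈ k) (hck' : c ∈ k')
    (hxk : x ∈ k) (hxk' : x' ∈ k') (hxx : x ≠ x') (hh : h ∈ R.lines) (hx : x ∈ h) (hx' : x' ∈ h)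
    (hg : g ∈ R.Hl l₁ l₂ a) (hcg : c ∉ g) : ∃ w, w ∈ h ∧ w ∈ g := by
  obtain ⟨v, hvk, hvg⟩ := C.hl_meet hk hg
  obtain ⟨v', hvk', hvg'⟩ := C.hl_meet hk' hg
  have hvv : v ≠ v' := by
    intro h
    have : v = c := pt_eq (hl_ord hk).1 (hl_ord hk').1 hne hvk (h ▸ hvk') hck hck'
    exact hcg (this ▸ hvg)
  obtain ⟨w, h1, h2⟩ := veblen (hl_ord hk) (hl_ord hk') (hl_ord hg).1 hh hck hck' hvk hvg hvk' hvg'
    hxk hx hxk' hx' hvv hxx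
  exact ⟨w, h2, h1⟩

/-- auxiliary: a line joining two points of the plane and missing `a` meets `l₁` -/
theorem join_meet (C : R.Cross l₁ l₂ a) {k k' h : Set P} (hk : k ∈ R.Hl l₁ l₂ a)
    (hk' : k' ∈ R.Hl l₁ l₂ a) (hne : k ≠ k') {x x' : P}
    (hxk : x ∈ k) (hxk' : x' ∈ k') (hxx : x ≠ x') (hh : h ∈ R.lines) (hx : x ∈ h) (hx' : x' ∈ h)
    (hah : a ∉ h) : ∃ w, w ∈ h ∧ w ∈ l₁ := by
  obtain ⟨c, hck, hck'⟩ := C.hl_meet hk hk'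
  by_cases hc1 : c ∈ l₁
  · by_cases hca : c = a
    · subst hca
      obtain ⟨g, hg⟩ := C.tr_nonempty
      have hg' : g ∈ R.Hl l₁ l₂ c := Or.inl hg
      have hcg : c ∉ g := hg.2.1
      obtain ⟨w, hwh, hwg⟩ := C.star_meet hk hk' hne hck hck' hxk hxk' hxx hh hx hx' hg' hcg
      obtain ⟨y, hy, hyg⟩ := hg.2.2.1
      have hcy : c ≠ y := fun h => hcg (h ▸ hyg)
      by_cases hxg : x ∈ g
      · by_cases hxg' : x' ∈ g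
        · have : h = g := line_eq hh hg.1.1 hxx hx hx' hxg hxg'
          exact ⟨y, this ▸ hyg, hy⟩
        · have hxw : x' ≠ w := fun h => hxg' (h ▸ hwg)
          obtain ⟨v, hvk, hvg⟩ := C.hl_meet hk' hg'
          obtain ⟨w, h1, h2⟩ := veblen (hl_ord hk') hg.1 C.o₁.1 hh hvk hvg hck' C.a₁ hyg hy
            hxk' hx' hwg hwh hcy hxw
          exact ⟨w, h2, h1⟩
      · have hxw : x ≠ w := fun h => hxg (h ▸ hwg)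
        obtain ⟨v, hvk, hvg⟩ := C.hl_meet hk hg'
        obtain ⟨w, h1, h2⟩ := veblen (hl_ord hk) hg.1 C.o₁.1 hh hvk hvg hck C.a₁ hyg hy
          hxk hx hwg hwh hcy hxw
        exact ⟨w, h2, h1⟩
    · have hc2 : c ∉ l₂ := fun h => hca (C.eq_a hc1 h)
      obtain ⟨z, hzh, hz2⟩ := C.star_meet hk hk' hne hck hck' hxk hxk' hxx hh hx hx' C.l₂_mem hc2
      by_cases hxz : x = z
      · have hxz' : x' ≠ z := fun h => hxx (hxz.trans h.symm)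
        obtain ⟨v, hvk, hv2⟩ := C.hl_meet hk' C.l₂_mem
        obtain ⟨w, h1, h2⟩ := veblen (hl_ord hk') C.o₂ C.o₁.1 hh hvk hv2 hck' hc1 C.a₂ C.a₁
          hxk' hx' hz2 hzh hca hxz'
        exact ⟨w, h2, h1⟩
      · obtain ⟨v, hvk, hv2⟩ := C.hl_meet hk C.l₂_mem
        obtain ⟨w, h1, h2⟩ := veblen (hl_ord hk) C.o₂ C.o₁.1 hh hvk hv2 hck hc1 C.a₂ C.a₁
          hxk hx hz2 hzh hca hxz
        exact ⟨w, h2, h1⟩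
  · exact C.star_meet hk hk' hne hck hck' hxk hxk' hxx hh hx hx' C.l₁_mem hc1

theorem join_mem (C : R.Cross l₁ l₂ a) {k k' h : Set P} (hk : k ∈ R.Hl l₁ l₂ a)
    (hk' : k' ∈ R.Hl l₁ l₂ a) {x x' : P} (hxk : x ∈ k) (hxk' : x' ∈ k') (hxx : x ≠ x')
    (oh : R.Ord h) (hx : x ∈ h) (hx' : x' ∈ h) : h ∈ R.Hl l₁ l₂ a := by
  by_cases hne : k = k'
  · subst hne
    have : h = k := line_eq oh.1 (hl_ord hk).1 hxx hx hx' hxk hxk'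
    exact this ▸ hk
  by_cases hah : a ∈ h
  · rcases hk with hk | hk
    · exact Or.inr ⟨oh, hah, k, hk, x, hx, hxk⟩
    · rcases hk' with hk' | hk'
      · exact Or.inr ⟨oh, hah, k', hk', x', hx', hxk'⟩
      · by_cases hxa : x = a
        · have hxa' : x' ≠ a := fun h => hxx (hxa.trans h.symm)
          have : h = k' := line_eq oh.1 hk'.1.1 hxa' hx' hah hxk' hk'.2.1
          exact Or.inr (this ▸ hk')
        · have : h = k := line_eq oh.1 hk.1.1 hxa hx hah hxk hk.2.1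
          exact Or.inr (this ▸ hk)
  · refine Or.inl ⟨oh, hah, ?_, ?_⟩
    · obtain ⟨w, h1, h2⟩ := C.join_meet hk hk' hne hxk hxk' hxx oh.1 hx hx' hah
      exact ⟨w, h2, h1⟩
    · obtain ⟨w, h1, h2⟩ := C.symm.join_meet (hl_comm ▸ hk) (hl_comm ▸ hk') hne hxk hxk' hxx
        oh.1 hx hx' hah
      exact ⟨w, h2, h1⟩

/-- an ordinary line with two points in the plane is a line of the plane -/
theorem mem_hl (C : R.Cross l₁ l₂ a) {h : Set P} (oh : R.Ord h) {x x' : P} (hxx : x ≠ x')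
    (hx : x ∈ h) (hx' : x' ∈ h) (hp : x ∈ R.Pl l₁ l₂ a) (hp' : x' ∈ R.Pl l₁ l₂ a) :
    h ∈ R.Hl l₁ l₂ a := by
  rcases hp with rfl | ⟨k, hk, hxk⟩
  · exact absurd hx oh.2
  rcases hp' with rfl | ⟨k', hk', hxk'⟩
  · exact absurd hx' oh.2
  exact C.join_mem hk hk' hxk hxk' hxx oh hx hx'

end Cross

/-! ### Subplanes -/

/-- among three points of a line there is one different from `a` and off a given other line -/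
theorem pick {l s : Set P} (hl : l ∈ R.lines) (hs : s ∈ R.lines) (hne : s ≠ l) {T : Set P}
    (h3 : ∃ x ∈ T, ∃ y ∈ T, ∃ z ∈ T, x ≠ y ∧ x ≠ z ∧ y ≠ z) (hT : T ⊆ l) (a : P) :
    ∃ u ∈ T, u ≠ a ∧ u ∉ s := by
  by_contra hcon
  push Not at hcon
  obtain ⟨x, hx, y, hy, z, hz, hxy, hxz, hyz⟩ := h3
  have key : ∀ u ∈ T, ∀ v ∈ T, u ≠ a → v ≠ a → u = v := fun u hu v hv hua hva =>
    pt_eq hs hl hne (hcon u hu hua) (hT hu) (hcon v hv hva) (hT hv)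
  by_cases h1 : x = a
  · have hy1 : y ≠ a := fun h => hxy (h1.trans h.symm)
    have hz1 : z ≠ a := fun h => hxz (h1.trans h.symm)
    exact hyz (key _ hy _ hz hy1 hz1)
  · by_cases h2 : y = a
    · have hz1 : z ≠ a := fun h => hyz (h2.trans h.symm)
      exact hxz (key _ hx _ hz h1 hz1)
    · exact hxy (key _ hx _ hy h1 h2)

theorem induced_line_eq {S l m : Set P} (hl : l ∈ R.lines) (hm : m ∈ R.lines)
    (hn : (l ∩ S).Nontrivial) (h : l ∩ S = m ∩ S) : l = m := by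
  obtain ⟨p, hp, q, hq, hpq⟩ := hn
  have hp' : p ∈ m ∩ S := h ▸ hp
  have hq' : q ∈ m ∩ S := h ▸ hq
  exact line_eq hl hm hpq hp.1 hq.1 hp'.1 hq'.1

theorem isSubplane_of {S : Set P}
    (hmeet : ∀ l ∈ R.lines, ∀ m ∈ R.lines, l ≠ m → (l ∩ S).Nontrivial → (m ∩ S).Nontrivial →
      ∃ x ∈ S, x ∈ l ∧ x ∈ m)
    (hquad : ∃ a ∈ S, ∃ b ∈ S, ∃ c ∈ S, ∃ d ∈ S, Quadrangle R.lines a b c d) :
    R.IsSubplane S where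
  subset := by
    rintro _ ⟨l, -, rfl, -⟩
    exact Set.inter_subset_right
  join := by
    intro p hp q hq hpq
    obtain ⟨l, hl, hpl, hql⟩ := R.exists_line hpq
    refine ⟨l ∩ S, ⟨⟨l, hl, rfl, ⟨p, ⟨hpl, hp⟩, q, ⟨hql, hq⟩, hpq⟩⟩, ⟨hpl, hp⟩, ⟨hql, hq⟩⟩, ?_⟩
    rintro _ ⟨⟨l', hl', rfl, -⟩, hp', hq'⟩
    rw [line_eq hl' hl hpq hp'.1 hq'.1 hpl hql]
  meet := by
    rintro _ ⟨l, hl, rfl, hn⟩ _ ⟨m, hm, rfl, hn'⟩ hne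
    have hlm : l ≠ m := fun h => hne (h ▸ rfl)
    obtain ⟨x, hxS, hxl, hxm⟩ := hmeet l hl m hm hlm hn hn'
    refine ⟨x, ⟨⟨hxl, hxS⟩, ⟨hxm, hxS⟩⟩, ?_⟩
    rintro y ⟨hy, hy'⟩
    exact pt_eq hl hm hlm hy.1 hy'.1 hxl hxm
  quad := by
    obtain ⟨a, ha, b, hb, c, hc, d, hd, h1, h2, h3, h4, h5, h6, h7⟩ := hquad
    refine ⟨a, ha, b, hb, c, hc, d, hd, h1, h2, h3, h4, h5, h6, ?_⟩
    rintro _ ⟨l, hl, rfl, -⟩
    obtain ⟨k1, k2, k3, k4⟩ := h7 l hl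
    exact ⟨fun h => k1 ⟨h.1.1, h.2.1.1, h.2.2.1⟩, fun h => k2 ⟨h.1.1, h.2.1.1, h.2.2.1⟩,
      fun h => k3 ⟨h.1.1, h.2.1.1, h.2.2.1⟩, fun h => k4 ⟨h.1.1, h.2.1.1, h.2.2.1⟩⟩

theorem IsSubplane.quadrangle {S : Set P} (hS : R.IsSubplane S) :
    ∃ a ∈ S, ∃ b ∈ S, ∃ c ∈ S, ∃ d ∈ S, Quadrangle R.lines a b c d := by
  obtain ⟨a, ha, b, hb, c, hc, d, hd, h1, h2, h3, h4, h5, h6, h7⟩ := hS.quad
  refine ⟨a, ha, b, hb, c, hc, d, hd, h1, h2, h3, h4, h5, h6, fun l hl => ?_⟩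
  have key : (l ∩ S).Nontrivial → _ := fun hn => h7 (l ∩ S) ⟨l, hl, rfl, hn⟩
  refine ⟨fun h => ?_, fun h => ?_, fun h => ?_, fun h => ?_⟩
  · exact (key ⟨a, ⟨h.1, ha⟩, b, ⟨h.2.1, hb⟩, h1⟩).1 ⟨⟨h.1, ha⟩, ⟨h.2.1, hb⟩, ⟨h.2.2, hc⟩⟩
  · exact (key ⟨a, ⟨h.1, ha⟩, b, ⟨h.2.1, hb⟩, h1⟩).2.1 ⟨⟨h.1, ha⟩, ⟨h.2.1, hb⟩, ⟨h.2.2, hd⟩⟩
  · exact (key ⟨a, ⟨h.1, ha⟩, c, ⟨h.2.1, hc⟩, h2⟩).2.2.1 ⟨⟨h.1, ha⟩, ⟨h.2.1, hc⟩, ⟨h.2.2, hd⟩⟩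
  · exact (key ⟨b, ⟨h.1, hb⟩, c, ⟨h.2.1, hc⟩, h4⟩).2.2.2 ⟨⟨h.1, hb⟩, ⟨h.2.1, hc⟩, ⟨h.2.2, hd⟩⟩

theorem IsSubplane.meet' {S : Set P} (hS : R.IsSubplane S) {l m : Set P} (hl : l ∈ R.lines)
    (hm : m ∈ R.lines) (hne : l ≠ m) (h1 : (l ∩ S).Nontrivial) (h2 : (m ∩ S).Nontrivial) :
    ∃ x ∈ S, x ∈ l ∧ x ∈ m := by
  obtain ⟨x, ⟨hx, hx'⟩, -⟩ := hS.meet (l ∩ S) ⟨l, hl, rfl, h1⟩ (m ∩ S) ⟨m, hm, rfl, h2⟩
    (fun h => hne (induced_line_eq hl hm h1 h))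
  exact ⟨x, hx.2, hx.1, hx'.1⟩

/-- every line of a subplane has at least three points -/
theorem IsSubplane.three {S : Set P} (hS : R.IsSubplane S) {l : Set P} (hl : l ∈ R.lines)
    (hn : (l ∩ S).Nontrivial) :
    ∃ x ∈ l ∩ S, ∃ y ∈ l ∩ S, ∃ z ∈ l ∩ S, x ≠ y ∧ x ≠ z ∧ y ≠ z := by
  have main : ∀ p ∈ S, p ∉ l → ∀ u ∈ S, ∀ v ∈ S, ∀ w ∈ S, p ≠ u → p ≠ v → p ≠ w →
      (∀ m ∈ R.lines, ¬ (p ∈ m ∧ u ∈ m ∧ v ∈ m) ∧ ¬ (p ∈ m ∧ u ∈ m ∧ w ∈ m) ∧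
        ¬ (p ∈ m ∧ v ∈ m ∧ w ∈ m)) →
      ∃ x ∈ l ∩ S, ∃ y ∈ l ∩ S, ∃ z ∈ l ∩ S, x ≠ y ∧ x ≠ z ∧ y ≠ z := by
    intro p hp hpl u hu v hv w hw hpu hpv hpw hq
    have proj : ∀ u ∈ S, p ≠ u → ∃ x ∈ l ∩ S, ∃ m ∈ R.lines, p ∈ m ∧ u ∈ m ∧ x ∈ m := by
      intro u hu hpu
      obtain ⟨m, hm, hpm, hum⟩ := R.exists_line hpu
      obtain ⟨x, hxS, hxl, hxm⟩ := hS.meet' hl hm (fun h => hpl (h ▸ hpm)) hn
        ⟨p, ⟨hpm, hp⟩, u, ⟨hum, hu⟩, hpu⟩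
      exact ⟨x, ⟨hxl, hxS⟩, m, hm, hpm, hum, hxm⟩
    obtain ⟨x, hx, m₁, hm₁, hp₁, hu₁, hx₁⟩ := proj u hu hpu
    obtain ⟨y, hy, m₂, hm₂, hp₂, hv₂, hy₂⟩ := proj v hv hpv
    obtain ⟨z, hz, m₃, hm₃, hp₃, hw₃, hz₃⟩ := proj w hw hpw
    have hpx : p ≠ x := fun h => hpl (h ▸ hx.1)
    have hpy : p ≠ y := fun h => hpl (h ▸ hy.1)
    refine ⟨x, hx, y, hy, z, hz, ?_, ?_, ?_⟩
    · intro h
      have : m₁ = m₂ := line_eq hm₁ hm₂ hpx hp₁ hx₁ hp₂ (h ▸ hy₂)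
      exact (hq m₁ hm₁).1 ⟨hp₁, hu₁, this ▸ hv₂⟩
    · intro h
      have : m₁ = m₃ := line_eq hm₁ hm₃ hpx hp₁ hx₁ hp₃ (h ▸ hz₃)
      exact (hq m₁ hm₁).2.1 ⟨hp₁, hu₁, this ▸ hw₃⟩
    · intro h
      have : m₂ = m₃ := line_eq hm₂ hm₃ hpy hp₂ hy₂ hp₃ (h ▸ hz₃)
      exact (hq m₂ hm₂).2.2 ⟨hp₂, hv₂, this ▸ hw₃⟩
  obtain ⟨a, ha, b, hb, c, hc, d, hd, h1, h2, h3, h4, h5, h6, h7⟩ := hS.quadrangle
  by_cases hal : a ∈ l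
  · by_cases hbl : b ∈ l
    · have hcl : c ∉ l := fun h => (h7 l hl).1 ⟨hal, hbl, h⟩
      refine main c hc hcl a ha b hb d hd h2.symm h4.symm h6 fun m hm => ⟨?_, ?_, ?_⟩
      · exact fun h => (h7 m hm).1 ⟨h.2.1, h.2.2, h.1⟩
      · exact fun h => (h7 m hm).2.2.1 ⟨h.2.1, h.1, h.2.2⟩
      · exact fun h => (h7 m hm).2.2.2 ⟨h.2.1, h.1, h.2.2⟩
    · refine main b hb hbl a ha c hc d hd h1.symm h4 h5 fun m hm => ⟨?_, ?_, ?_⟩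
      · exact fun h => (h7 m hm).1 ⟨h.2.1, h.1, h.2.2⟩
      · exact fun h => (h7 m hm).2.1 ⟨h.2.1, h.1, h.2.2⟩
      · exact fun h => (h7 m hm).2.2.2 ⟨h.1, h.2.1, h.2.2⟩
  · refine main a ha hal b hb c hc d hd h1 h2 h3 fun m hm => ⟨?_, ?_, ?_⟩
    · exact fun h => (h7 m hm).1 ⟨h.1, h.2.1, h.2.2⟩
    · exact fun h => (h7 m hm).2.1 ⟨h.1, h.2.1, h.2.2⟩
    · exact fun h => (h7 m hm).2.2.1 ⟨h.1, h.2.1, h.2.2⟩

namespace Cross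

variable {l₁ l₂ : Set P} {a : P}

theorem l₁_sub (C : R.Cross l₁ l₂ a) : l₁ ⊆ R.Pl l₁ l₂ a :=
  fun _ hx => Or.inr ⟨l₁, C.l₁_mem, hx⟩

theorem l₂_sub (C : R.Cross l₁ l₂ a) : l₂ ⊆ R.Pl l₁ l₂ a :=
  fun _ hx => Or.inr ⟨l₂, C.l₂_mem, hx⟩

theorem isSubplane (C : R.Cross l₁ l₂ a) : R.IsSubplane (R.Pl l₁ l₂ a) := by
  refine isSubplane_of ?_ ?_
  · intro l hl m hm hlm hn hn'
    have key : ∀ l ∈ R.lines, (l ∩ R.Pl l₁ l₂ a).Nontrivial → R.D ∉ l → l ∈ R.Hl l₁ l₂ a := by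
      rintro l hl ⟨x, hx, y, hy, hxy⟩ hD
      exact C.mem_hl ⟨hl, hD⟩ hxy hx.1 hy.1 hx.2 hy.2
    by_cases hDl : R.D ∈ l
    · by_cases hDm : R.D ∈ m
      · exact ⟨R.D, Or.inl rfl, hDl, hDm⟩
      · have hm' := key m hm hn' hDm
        obtain ⟨x, hx, hx'⟩ := special_meet hl hDl ⟨hm, hDm⟩
        exact ⟨x, Or.inr ⟨m, hm', hx'⟩, hx, hx'⟩
    · have hl' := key l hl hn hDl
      by_cases hDm : R.D ∈ m
      · obtain ⟨x, hx, hx'⟩ := special_meet hm hDm ⟨hl, hDl⟩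
        exact ⟨x, Or.inr ⟨l, hl', hx'⟩, hx', hx⟩
      · obtain ⟨x, hx, hx'⟩ := C.hl_meet hl' (key m hm hn' hDm)
        exact ⟨x, Or.inr ⟨l, hl', hx⟩, hx, hx'⟩
  · -- a quadrangle: two points on each of the lines, different from `a`
    have two : ∀ l ∈ R.lines, ∃ y ∈ l, ∃ y' ∈ l, y ≠ a ∧ y' ≠ a ∧ y ≠ y' := by
      intro l hl
      obtain ⟨x, hx, y, hy, z, hz, hxy, hxz, hyz⟩ := R.A3 l hl
      by_cases h1 : x = a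
      · exact ⟨y, hy, z, hz, fun h => hxy (h1.trans h.symm), fun h => hxz (h1.trans h.symm), hyz⟩
      · by_cases h2 : y = a
        · exact ⟨x, hx, z, hz, h1, fun h => hyz (h2.trans h.symm), hxz⟩
        · exact ⟨x, hx, y, hy, h1, h2, hxy⟩
    obtain ⟨y, hy, y', hy', hya, hya', hyy⟩ := two l₁ C.o₁.1
    obtain ⟨z, hz, z', hz', hza, hza', hzz⟩ := two l₂ C.o₂.1
    have n1 : ∀ w ∈ l₂, w ≠ a → w ∉ l₁ := fun w hw hwa h => hwa (C.eq_a h hw)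
    have n2 : ∀ w ∈ l₁, w ≠ a → w ∉ l₂ := fun w hw hwa h => hwa (C.eq_a hw h)
    refine ⟨y, C.l₁_sub hy, y', C.l₁_sub hy', z, C.l₂_sub hz, z', C.l₂_sub hz', hyy, ?_, ?_, ?_,
      ?_, hzz, fun m hm => ⟨?_, ?_, ?_, ?_⟩⟩
    · exact fun h => n2 y hy hya (h ▸ hz)
    · exact fun h => n2 y hy hya (h ▸ hz')
    · exact fun h => n2 y' hy' hya' (h ▸ hz)
    · exact fun h => n2 y' hy' hya' (h ▸ hz')
    · rintro ⟨h1, h2, h3⟩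
      exact n1 z hz hza (line_eq hm C.o₁.1 hyy h1 h2 hy hy' ▸ h3)
    · rintro ⟨h1, h2, h3⟩
      exact n1 z' hz' hza' (line_eq hm C.o₁.1 hyy h1 h2 hy hy' ▸ h3)
    · rintro ⟨h1, h2, h3⟩
      exact n2 y hy hya (line_eq hm C.o₂.1 hzz h2 h3 hz hz' ▸ h1)
    · rintro ⟨h1, h2, h3⟩
      exact n2 y' hy' hya' (line_eq hm C.o₂.1 hzz h2 h3 hz hz' ▸ h1)

/-- a subplane in which `l₁`, `l₂` induce lines is contained in the plane of `l₁`, `l₂` -/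
theorem sub_of_subplane (C : R.Cross l₁ l₂ a) {S : Set P} (hS : R.IsSubplane S)
    (h1 : (l₁ ∩ S).Nontrivial) (h2 : (l₂ ∩ S).Nontrivial) : S ⊆ R.Pl l₁ l₂ a := by
  intro x hx
  by_cases hxD : x = R.D
  · exact Or.inl hxD
  by_cases hx1 : x ∈ l₁
  · exact C.l₁_sub hx1
  by_cases hx2 : x ∈ l₂
  · exact C.l₂_sub hx2
  obtain ⟨s, hs, hDs, hxs⟩ := R.exists_line (Ne.symm hxD)
  have hsl : s ≠ l₁ := fun h => hx1 (h ▸ hxs)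
  obtain ⟨y, hy, hya, hys⟩ := pick C.o₁.1 hs hsl (hS.three C.o₁.1 h1) Set.inter_subset_left a
  have hxy : x ≠ y := fun h => hys (h ▸ hxs)
  obtain ⟨k, hk, hxk, hyk⟩ := R.exists_line hxy
  have hDk : R.D ∉ k := fun h => hys (line_eq hk hs hxD hxk h hxs hDs ▸ hyk)
  have hak : a ∉ k := fun h => hx1 (line_eq hk C.o₁.1 hya hyk h hy.1 C.a₁ ▸ hxk)
  have hkl : k ≠ l₂ := fun h => hx2 (h ▸ hxk)
  obtain ⟨z, hzS, hzk, hz2⟩ := hS.meet' hk C.o₂.1 hkl ⟨x, ⟨hxk, hx⟩, y, ⟨hyk, hy.2⟩, hxy⟩ h2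
  exact Or.inr ⟨k, Or.inl ⟨⟨hk, hDk⟩, hak, ⟨y, hy.1, hyk⟩, ⟨z, hz2, hzk⟩⟩, hxk⟩

theorem nontrivial_inter (C : R.Cross l₁ l₂ a) {S : Set P} (hS : R.Pl l₁ l₂ a ⊆ S) :
    (l₁ ∩ S).Nontrivial ∧ (l₂ ∩ S).Nontrivial := by
  constructor
  · obtain ⟨x, hx, y, hy, z, hz, hxy, -, -⟩ := R.A3 l₁ C.o₁.1
    exact ⟨x, ⟨hx, hS (C.l₁_sub hx)⟩, y, ⟨hy, hS (C.l₁_sub hy)⟩, hxy⟩
  · obtain ⟨x, hx, y, hy, z, hz, hxy, -, -⟩ := R.A3 l₂ C.o₂.1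
    exact ⟨x, ⟨hx, hS (C.l₂_sub hx)⟩, y, ⟨hy, hS (C.l₂_sub hy)⟩, hxy⟩

theorem isPlane (C : R.Cross l₁ l₂ a) : R.IsPlane (R.Pl l₁ l₂ a) := by
  refine ⟨C.isSubplane, fun S hS hle => ?_⟩
  obtain ⟨h1, h2⟩ := C.nontrivial_inter hle
  exact C.sub_of_subplane hS h1 h2

theorem plane_eq (C : R.Cross l₁ l₂ a) {S : Set P} (hS : R.IsPlane S)
    (h1 : (l₁ ∩ S).Nontrivial) (h2 : (l₂ ∩ S).Nontrivial) : S = R.Pl l₁ l₂ a := by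
  have hsub := C.sub_of_subplane hS.1 h1 h2
  exact Set.Subset.antisymm hsub (hS.2 C.isSubplane hsub)

end Cross

theorem IsSubplane.exists_cross {S : Set P} (hS : R.IsSubplane S) :
    ∃ l₁ l₂ a, R.Cross l₁ l₂ a ∧ (l₁ ∩ S).Nontrivial ∧ (l₂ ∩ S).Nontrivial := by
  have main : ∀ p ∈ S, p ≠ R.D → ∀ u ∈ S, ∀ v ∈ S, ∀ w ∈ S, p ≠ u → p ≠ v → p ≠ w →
      (∀ m ∈ R.lines, ¬ (p ∈ m ∧ u ∈ m ∧ v ∈ m) ∧ ¬ (p ∈ m ∧ u ∈ m ∧ w ∈ m) ∧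
        ¬ (p ∈ m ∧ v ∈ m ∧ w ∈ m)) →
      ∃ l₁ l₂ a, R.Cross l₁ l₂ a ∧ (l₁ ∩ S).Nontrivial ∧ (l₂ ∩ S).Nontrivial := by
    intro p hp hpD u hu v hv w hw hpu hpv hpw hq
    obtain ⟨m₁, hm₁, hp₁, hu₁⟩ := R.exists_line hpu
    obtain ⟨m₂, hm₂, hp₂, hv₂⟩ := R.exists_line hpv
    obtain ⟨m₃, hm₃, hp₃, hw₃⟩ := R.exists_line hpw
    have h12 : m₁ ≠ m₂ := fun h => (hq m₁ hm₁).1 ⟨hp₁, hu₁, h ▸ hv₂⟩
    have h13 : m₁ ≠ m₃ := fun h => (hq m₁ hm₁).2.1 ⟨hp₁, hu₁, h ▸ hw₃⟩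
    have h23 : m₂ ≠ m₃ := fun h => (hq m₂ hm₂).2.2 ⟨hp₂, hv₂, h ▸ hw₃⟩
    have n₁ : (m₁ ∩ S).Nontrivial := ⟨p, ⟨hp₁, hp⟩, u, ⟨hu₁, hu⟩, hpu⟩
    have n₂ : (m₂ ∩ S).Nontrivial := ⟨p, ⟨hp₂, hp⟩, v, ⟨hv₂, hv⟩, hpv⟩
    have n₃ : (m₃ ∩ S).Nontrivial := ⟨p, ⟨hp₃, hp⟩, w, ⟨hw₃, hw⟩, hpw⟩
    by_cases hD1 : R.D ∈ m₁
    · have hD2 : R.D ∉ m₂ := fun h => h12 (line_eq hm₁ hm₂ hpD hp₁ hD1 hp₂ h)
      have hD3 : R.D ∉ m₃ := fun h => h13 (line_eq hm₁ hm₃ hpD hp₁ hD1 hp₃ h)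
      exact ⟨m₂, m₃, p, ⟨⟨hm₂, hD2⟩, ⟨hm₃, hD3⟩, h23, hp₂, hp₃⟩, n₂, n₃⟩
    · by_cases hD2 : R.D ∈ m₂
      · have hD3 : R.D ∉ m₃ := fun h => h23 (line_eq hm₂ hm₃ hpD hp₂ hD2 hp₃ h)
        exact ⟨m₁, m₃, p, ⟨⟨hm₁, hD1⟩, ⟨hm₃, hD3⟩, h13, hp₁, hp₃⟩, n₁, n₃⟩
      · exact ⟨m₁, m₂, p, ⟨⟨hm₁, hD1⟩, ⟨hm₂, hD2⟩, h12, hp₁, hp₂⟩, n₁, n₂⟩
  obtain ⟨a, ha, b, hb, c, hc, d, hd, h1, h2, h3, h4, h5, h6, h7⟩ := hS.quadrangle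
  by_cases haD : a = R.D
  · have hbD : b ≠ R.D := fun h => h1 (haD.trans h.symm)
    refine main b hb hbD a ha c hc d hd h1.symm h4 h5 fun m hm => ⟨?_, ?_, ?_⟩
    · exact fun h => (h7 m hm).1 ⟨h.2.1, h.1, h.2.2⟩
    · exact fun h => (h7 m hm).2.1 ⟨h.2.1, h.1, h.2.2⟩
    · exact fun h => (h7 m hm).2.2.2 ⟨h.1, h.2.1, h.2.2⟩
  · refine main a ha haD b hb c hc d hd h1 h2 h3 fun m hm => ⟨?_, ?_, ?_⟩
    · exact fun h => (h7 m hm).1 ⟨h.1, h.2.1, h.2.2⟩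
    · exact fun h => (h7 m hm).2.1 ⟨h.1, h.2.1, h.2.2⟩
    · exact fun h => (h7 m hm).2.2.1 ⟨h.1, h.2.1, h.2.2⟩

namespace IsPlane

theorem eq_pl {S : Set P} (hS : R.IsPlane S) :
    ∃ l₁ l₂ a, R.Cross l₁ l₂ a ∧ S = R.Pl l₁ l₂ a := by
  obtain ⟨l₁, l₂, a, C, h1, h2⟩ := hS.1.exists_cross
  exact ⟨l₁, l₂, a, C, C.plane_eq hS h1 h2⟩

theorem D_mem {S : Set P} (hS : R.IsPlane S) : R.D ∈ S := by
  obtain ⟨l₁, l₂, a, -, rfl⟩ := hS.eq_pl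
  exact Or.inl rfl

theorem line_sub {S : Set P} (hS : R.IsPlane S) {h : Set P} (oh : R.Ord h) {x x' : P}
    (hxx : x ≠ x') (hx : x ∈ h) (hx' : x' ∈ h) (hxS : x ∈ S) (hxS' : x' ∈ S) : h ⊆ S := by
  obtain ⟨l₁, l₂, a, C, rfl⟩ := hS.eq_pl
  exact fun y hy => Or.inr ⟨h, C.mem_hl oh hxx hx hx' hxS hxS', hy⟩

theorem lines_meet {S : Set P} (hS : R.IsPlane S) {h h' : Set P} (oh : R.Ord h) (oh' : R.Ord h')
    (hs : h ⊆ S) (hs' : h' ⊆ S) : ∃ x, x ∈ h ∧ x ∈ h' := by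
  by_cases hne : h = h'
  · obtain ⟨x, hx, -⟩ := R.A3 h oh.1
    exact ⟨x, hx, hne ▸ hx⟩
  have nt : ∀ {h : Set P}, R.Ord h → h ⊆ S → (h ∩ S).Nontrivial := by
    intro h oh hs
    obtain ⟨x, hx, y, hy, -, -, hxy, -⟩ := R.A3 h oh.1
    exact ⟨x, ⟨hx, hs hx⟩, y, ⟨hy, hs hy⟩, hxy⟩
  obtain ⟨x, -, h1, h2⟩ := hS.1.meet' oh.1 oh'.1 hne (nt oh hs) (nt oh' hs')
  exact ⟨x, h1, h2⟩

theorem exists_not_mem {S : Set P} (hS : R.IsPlane S) {s : Set P} (hs : s ∈ R.lines)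
    (hD : R.D ∈ s) : ∃ x ∈ S, x ∉ s := by
  obtain ⟨l₁, l₂, a, C, rfl⟩ := hS.eq_pl
  obtain ⟨x, hx, -, hxs⟩ := pick C.o₁.1 hs (fun h => C.o₁.2 (h ▸ hD)) (R.A3 l₁ C.o₁.1)
    (Set.Subset.refl _) a
  exact ⟨x, C.l₁_sub hx, hxs⟩

theorem special_nontrivial {S : Set P} (hS : R.IsPlane S) {s : Set P} (hs : s ∈ R.lines)
    (hD : R.D ∈ s) : (s ∩ S).Nontrivial := by
  obtain ⟨l₁, l₂, a, C, rfl⟩ := hS.eq_pl
  obtain ⟨x, hx, hx1⟩ := special_meet hs hD C.o₁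
  exact ⟨R.D, ⟨hD, Or.inl rfl⟩, x, ⟨hx, C.l₁_sub hx1⟩, fun h => C.o₁.2 (h ▸ hx1)⟩

theorem two_points {S : Set P} (hS : R.IsPlane S) {s : Set P} (hs : s ∈ R.lines)
    (hD : R.D ∈ s) : ∃ p ∈ s ∩ S, ∃ p' ∈ s ∩ S, p ≠ R.D ∧ p' ≠ R.D ∧ p ≠ p' := by
  obtain ⟨x, hx, y, hy, z, hz, hxy, hxz, hyz⟩ := hS.1.three hs (hS.special_nontrivial hs hD)
  by_cases h1 : x = R.D
  · exact ⟨y, hy, z, hz, fun h => hxy (h1.trans h.symm), fun h => hxz (h1.trans h.symm), hyz⟩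
  · by_cases h2 : y = R.D
    · exact ⟨x, hx, z, hz, h1, fun h => hyz (h2.trans h.symm), hxz⟩
    · exact ⟨x, hx, y, hy, h1, h2, hxy⟩

end IsPlane

/-- the two ordinary lines joining a point off the special line `s` to two points of `s` -/
theorem exists_cross_of {s : Set P} (hs : s ∈ R.lines) (hD : R.D ∈ s) {p p' q : P} (hp : p ∈ s)
    (hp' : p' ∈ s) (hpD : p ≠ R.D) (hpD' : p' ≠ R.D) (hpp : p ≠ p') (hq : q ∉ s) :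
    ∃ l₁ l₂, R.Cross l₁ l₂ q ∧ p ∈ l₁ ∧ p' ∈ l₂ := by
  have hqp : q ≠ p := fun h => hq (h ▸ hp)
  have hqp' : q ≠ p' := fun h => hq (h ▸ hp')
  obtain ⟨l₁, hl₁, hq₁, hp₁⟩ := R.exists_line hqp
  obtain ⟨l₂, hl₂, hq₂, hp₂⟩ := R.exists_line hqp'
  refine ⟨l₁, l₂, ⟨⟨hl₁, fun h => hq ?_⟩, ⟨hl₂, fun h => hq ?_⟩, fun h => hq ?_, hq₁, hq₂⟩,
    hp₁, hp₂⟩
  · exact line_eq hl₁ hs hpD hp₁ h hp hD ▸ hq₁
  · exact line_eq hl₂ hs hpD' hp₂ h hp' hD ▸ hq₂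
  · exact line_eq hl₁ hs hpp hp₁ (h ▸ hp₂) hp hp' ▸ hq₁

/-- a plane through three given points `p, p' ∈ s`, `q ∉ s` is unique -/
theorem IsPlane.unique {S S' : Set P} (hS : R.IsPlane S) (hS' : R.IsPlane S') {s : Set P}
    (hs : s ∈ R.lines) (hD : R.D ∈ s) {p p' q : P} (hp : p ∈ s) (hp' : p' ∈ s) (hpD : p ≠ R.D)
    (hpD' : p' ≠ R.D) (hpp : p ≠ p') (hq : q ∉ s) (h1 : p ∈ S) (h2 : p' ∈ S) (h3 : q ∈ S)
    (h1' : p ∈ S') (h2' : p' ∈ S') (h3' : q ∈ S') : S = S' := by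
  obtain ⟨l₁, l₂, C, hl₁, hl₂⟩ := exists_cross_of hs hD hp hp' hpD hpD' hpp hq
  have hqp : q ≠ p := fun h => hq (h ▸ hp)
  have hqp' : q ≠ p' := fun h => hq (h ▸ hp')
  rw [C.plane_eq hS ⟨q, ⟨C.a₁, h3⟩, p, ⟨hl₁, h1⟩, hqp⟩ ⟨q, ⟨C.a₂, h3⟩, p', ⟨hl₂, h2⟩, hqp'⟩,
    C.plane_eq hS' ⟨q, ⟨C.a₁, h3'⟩, p, ⟨hl₁, h1'⟩, hqp⟩ ⟨q, ⟨C.a₂, h3'⟩, p', ⟨hl₂, h2'⟩, hqp'⟩]

/-- **Key lemma.** Two planes which share two ordinary points of a special line `s` have the same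
intersection with `s` (one inclusion). -/
theorem section_sub {S S' : Set P} (hS : R.IsPlane S) (hS' : R.IsPlane S') {s : Set P}
    (hs : s ∈ R.lines) (hD : R.D ∈ s) {p p' : P} (hp : p ∈ s) (hp' : p' ∈ s) (hpD : p ≠ R.D)
    (hpD' : p' ≠ R.D) (hpp : p ≠ p') (h1 : p ∈ S) (h2 : p' ∈ S) (h1' : p ∈ S') (h2' : p' ∈ S') :
    s ∩ S ⊆ s ∩ S' := by
  by_cases hSS : S = S'
  · rw [hSS]
  -- common points of the two planes lie on `s`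
  have hN : ∀ x, x ∈ S → x ∈ S' → x ∈ s := by
    intro x hx hx'
    by_contra hxs
    exact hSS (hS.unique hS' hs hD hp hp' hpD hpD' hpp hxs h1 h2 hx h1' h2' hx')
  rintro r ⟨hrs, hrS⟩
  refine ⟨hrs, ?_⟩
  by_contra hrS'
  have hrD : r ≠ R.D := fun h => hrS' (h ▸ hS'.D_mem)
  -- a line meeting `s` in an ordinary point and having a point off `s` is ordinary
  have ord_of : ∀ {l : Set P} {u v : P}, l ∈ R.lines → u ∈ s → u ≠ R.D → u ∈ l → v ∈ l → v ∉ s →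
      R.Ord l := fun hl hu huD hul hvl hv =>
    ⟨hl, fun h => hv (line_eq hl hs huD hul h hu hD ▸ hvl)⟩
  have on_s : ∀ {l : Set P} {u v : P}, R.Ord l → u ∈ s → u ∈ l → v ∈ l → v ∈ s → v = u :=
    fun ol hu hul hvl hv => pt_eq ol.1 hs (fun h => ol.2 (h ▸ hD)) hvl hv hul hu
  -- the point `a`
  obtain ⟨a, haS, has⟩ := hS.exists_not_mem hs hD
  have haD : a ≠ R.D := fun h => has (h ▸ hD)
  obtain ⟨t, ht, hDt, hat⟩ := R.exists_line (Ne.symm haD)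
  have hts : t ≠ s := fun h => has (h ▸ hat)
  -- the point `a'`
  obtain ⟨a', haS', has', hat'⟩ : ∃ a' ∈ S', a' ∉ s ∧ a' ∉ t := by
    obtain ⟨b, hbS, hbs⟩ := hS'.exists_not_mem hs hD
    have hbp : b ≠ p := fun h => hbs (h ▸ hp)
    obtain ⟨m, hm, hbm, hpm⟩ := R.exists_line hbp
    have om : R.Ord m := ord_of hm hp hpD hpm hbm hbs
    have hmS : m ⊆ S' := hS'.line_sub om hbp hbm hpm hbS h1'
    obtain ⟨u, hu, hup, hut⟩ := pick hm ht (fun h => om.2 (h ▸ hDt)) (R.A3 m hm)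
      (Set.Subset.refl _) p
    exact ⟨u, hmS hu, fun h => hup (on_s om hp hpm hu h), hut⟩
  have haa : a ≠ a' := fun h => hat' (h ▸ hat)
  obtain ⟨g, hg, hag, hag'⟩ := R.exists_line haa
  have og : R.Ord g := ⟨hg, fun h => hat' (line_eq hg ht haD hag h hat hDt ▸ hag')⟩
  obtain ⟨o, hos, hog⟩ := special_meet hs hD og
  have hoD : o ≠ R.D := fun h => og.2 (h ▸ hog)
  have hao : a ≠ o := fun h => has (h ▸ hos)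
  have hao' : a' ≠ o := fun h => has' (h ▸ hos)
  have hoS : o ∉ S := fun h => has' (hN a' (hS.line_sub og hao hag hog haS h hag') haS')
  have hoS' : o ∉ S' := fun h => has (hN a haS (hS'.line_sub og hao' hag' hog haS' h hag))
  -- the projection from `o`
  have step : ∀ {y y' x q : P} {l m k n : Set P}, R.Ord l → o ∈ l → y ∈ l → y' ∈ l →
      R.Ord m → y ∈ m → x ∈ m → q ∈ m → q ∈ s → q ∈ S' → q ∈ S → x ∈ S → x ∉ s →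
      y' ∈ S' → y' ∉ s → R.Ord k → y' ∈ k → q ∈ k → R.Ord n → o ∈ n → x ∈ n →
      ∃ x', x' ∈ S' ∧ x' ∉ s ∧ x' ∈ n := by
    intro y y' x q l m k n ol hol hyl hyl' om hym hxm hqm hqs hqS' hqS hxS hxs hyS' hys' ok hyk
      hqk on hon hxn
    have hyq : y' ≠ q := fun h => hys' (h ▸ hqs)
    have hox : o ≠ x := fun h => hxs (h ▸ hos)
    obtain ⟨x', hx1, hx2⟩ := veblen ol om ok.1 on.1 hyl hym hyl' hyk hqm hqk hol hon hxm hxn hyq hox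
    have hkS : k ⊆ S' := hS'.line_sub ok hyq hyk hqk hyS' hqS'
    refine ⟨x', hkS hx1, fun h => ?_, hx2⟩
    have : x' = o := on_s on hos hon hx2 h
    exact hoS' (this ▸ hkS hx1)
  have ord_o : ∀ x, x ∉ s → ∃ n, R.Ord n ∧ o ∈ n ∧ x ∈ n := by
    intro x hx
    have hox : o ≠ x := fun h => hx (h ▸ hos)
    obtain ⟨n, hn, hon, hxn⟩ := R.exists_line hox
    exact ⟨n, ord_of hn hos hoD hon hxn hx, hon, hxn⟩
  have ord_q : ∀ q x, q ∈ s → q ≠ R.D → x ∉ s → ∃ n, R.Ord n ∧ q ∈ n ∧ x ∈ n := by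
    intro q x hq hqD hx
    have hqx : q ≠ x := fun h => hx (h ▸ hq)
    obtain ⟨n, hn, hqn, hxn⟩ := R.exists_line hqx
    exact ⟨n, ord_of hn hq hqD hqn hxn hx, hqn, hxn⟩
  obtain ⟨ap, oap, hpap, haap⟩ := ord_q p a hp hpD has
  have hnap : a ≠ p := fun h => has (h ▸ hp)
  have hapS : ap ⊆ S := hS.line_sub oap hnap haap hpap haS h1
  obtain ⟨ap', oap', hpap', haap'⟩ := ord_q p a' hp hpD has'
  have proj : ∀ x ∈ S, x ∉ s → ∀ n, R.Ord n → o ∈ n → x ∈ n → ∃ x', x' ∈ S' ∧ x' ∉ s ∧ x' ∈ n := by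
    -- first for points of the line `ap`
    have proj1 : ∀ x ∈ ap, x ∉ s → ∀ n, R.Ord n → o ∈ n → x ∈ n →
        ∃ x', x' ∈ S' ∧ x' ∉ s ∧ x' ∈ n := by
      intro x hx hxs n on hon hxn
      exact step og hog hag hag' oap haap hx hpap hp h1' h1 (hapS hx) hxs haS' has' oap' haap'
        hpap' on hon hxn
    intro x hxS hxs n on hon hxn
    obtain ⟨m, om, hpm, hxm⟩ := ord_q p' x hp' hpD' hxs
    have hxp : x ≠ p' := fun h => hxs (h ▸ hp')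
    have hmS : m ⊆ S := hS.line_sub om hxp hxm hpm hxS h2
    obtain ⟨y, hym, hyap⟩ := hS.lines_meet om oap hmS hapS
    have hys : y ∉ s := by
      intro h
      have e1 : y = p := on_s oap hp hpap hyap h
      have e2 : y = p' := on_s om hp' hpm hym h
      exact hpp (e1.symm.trans e2)
    obtain ⟨l, ol, hol, hyl⟩ := ord_o y hys
    obtain ⟨y', hyS', hys', hyl'⟩ := proj1 y hyap hys l ol hol hyl
    obtain ⟨k, ok, hpk, hyk⟩ := ord_q p' y' hp' hpD' hys'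
    exact step ol hol hyl hyl' om hym hxm hpm hp' h2' h2 hxS hxs hyS' hys' ok hyk hpk on hon hxn
  -- the special line through `a'`
  have haD' : a' ≠ R.D := fun h => has' (h ▸ hD)
  obtain ⟨v, hv, hDv, hav⟩ := R.exists_line (Ne.symm haD')
  have hvs : v ≠ s := fun h => has' (h ▸ hav)
  obtain ⟨k, ok, hrk, hak⟩ := ord_q r a hrs hrD has
  have hnar : a ≠ r := fun h => has (h ▸ hrs)
  have hkS : k ⊆ S := hS.line_sub ok hnar hak hrk haS hrS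
  obtain ⟨w, hwv, hwk⟩ := special_meet hv hDv ok
  have hwD : w ≠ R.D := fun h => ok.2 (h ▸ hwk)
  have hws : w ∉ s := fun h => hwD (pt_eq hv hs hvs hwv h hDv hD)
  have hwa : a ≠ w := by
    intro h
    have : t = v := line_eq ht hv haD hat hDt (h ▸ hwv) hDv
    exact hat' (this ▸ hav)
  obtain ⟨n, on, hon, hwn⟩ := ord_o w hws
  obtain ⟨w', hwS', hws', hwn'⟩ := proj w (hkS hwk) hws n on hon hwn
  have hww : w ≠ w' := fun h => hws (hN w (hkS hwk) (h ▸ hwS'))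
  by_cases hwv' : w' ∈ v
  · have : n = v := line_eq on.1 hv hww hwn hwn' hwv hwv'
    exact on.2 (this ▸ hDv)
  · have haw : a' ≠ w' := fun h => hwv' (h ▸ hav)
    obtain ⟨j, hj, haj, hwj⟩ := R.exists_line haw
    have oj : R.Ord j := ⟨hj, fun h => hwv' (line_eq hj hv haD' haj h hav hDv ▸ hwj)⟩
    have hjS : j ⊆ S' := hS'.line_sub oj haw haj hwj haS' hwS'
    obtain ⟨z, hz1, hz2⟩ := veblen og on ok.1 hj hog hon hag hak hwn hwk hag' haj hwn' hwj hwa haw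
    have hzs : z ∈ s := hN z (hkS hz1) (hjS hz2)
    have : z = r := on_s ok hrs hrk hz1 hzs
    exact hrS' (this ▸ hjS hz2)

/-- Two planes which share two ordinary points of a special line `s` have the same intersection
with `s`. -/
theorem section_eq {S S' : Set P} (hS : R.IsPlane S) (hS' : R.IsPlane S') {s : Set P}
    (hs : s ∈ R.lines) (hD : R.D ∈ s) {p p' : P} (hp : p ∈ s) (hp' : p' ∈ s) (hpD : p ≠ R.D)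
    (hpD' : p' ≠ R.D) (hpp : p ≠ p') (h1 : p ∈ S) (h2 : p' ∈ S) (h1' : p ∈ S') (h2' : p' ∈ S') :
    s ∩ S = s ∩ S' :=
  Set.Subset.antisymm (section_sub hS hS' hs hD hp hp' hpD hpD' hpp h1 h2 h1' h2')
    (section_sub hS' hS hs hD hp hp' hpD hpD' hpp h1' h2' h1 h2)

/-- In a nontrivial projective rectangle, no plane together with a special line covers all
points. -/
theorem exists_off {S : Set P} (hR : R.IsNontrivial) (hS : R.IsPlane S) {s : Set P}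
    (hs : s ∈ R.lines) (hD : R.D ∈ s) : ∃ q, q ∉ S ∧ q ∉ s := by
  by_contra hcon
  push Not at hcon
  apply hR
  have huniv : S = Set.univ := by
    rw [Set.eq_univ_iff_forall]
    intro r
    by_contra hr
    have hrs : r ∈ s := hcon r hr
    have hrD : r ≠ R.D := fun h => hr (h ▸ hS.D_mem)
    obtain ⟨x, hxS, hxs⟩ := hS.exists_not_mem hs hD
    have hrx : r ≠ x := fun h => hr (h ▸ hxS)
    obtain ⟨l, hl, hrl, hxl⟩ := R.exists_line hrx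
    have ol : R.Ord l := ⟨hl, fun h => hxs (line_eq hl hs hrD hrl h hrs hD ▸ hxl)⟩
    obtain ⟨u, hu, hux, hus⟩ := pick hl hs (fun h => ol.2 (h ▸ hD)) (R.A3 l hl)
      (Set.Subset.refl _) x
    have huS : u ∈ S := by
      by_contra h
      exact hus (hcon u h)
    exact hr (hS.line_sub ol hux hu hxl huS hxS hrl)
  have hind : R.inducedLines Set.univ = R.lines := by
    ext l
    constructor
    · rintro ⟨m, hm, rfl, -⟩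
      rwa [Set.inter_univ]
    · intro hl
      obtain ⟨x, hx, y, hy, -, -, hxy, -⟩ := R.A3 l hl
      exact ⟨l, hl, (Set.inter_univ l).symm, x, hx, y, hy, hxy⟩
  have h := hS.1
  rw [huniv, IsSubplane, hind] at h
  exact h

end ProjectiveRectangle

open ProjectiveRectangle in
theorem main {P : Type u} (R : ProjectiveRectangle P) (hR : R.IsNontrivial) (π : Set P)
    (hπ : R.IsPlane π) (s : Set P) (hs : s ∈ R.lines) (hD : R.D ∈ s) :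
    ∃ π' : Set P, R.IsPlane π' ∧ π' ≠ π ∧ s ∩ π' = s ∩ π ∧ s ∩ π ∈ R.inducedLines π' := by
  obtain ⟨p, hp, p', hp', hpD, hpD', hpp⟩ := hπ.two_points hs hD
  obtain ⟨q, hqπ, hqs⟩ := exists_off hR hπ hs hD
  obtain ⟨l₁, l₂, C, h1, h2⟩ := exists_cross_of hs hD hp.1 hp'.1 hpD hpD' hpp hqs
  have hplane := C.isPlane
  have heq : s ∩ R.Pl l₁ l₂ q = s ∩ π := section_eq hplane hπ hs hD hp.1 hp'.1 hpD hpD' hpp
    (C.l₁_sub h1) (C.l₂_sub h2) hp.2 hp'.2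
  refine ⟨R.Pl l₁ l₂ q, hplane, fun h => hqπ (h ▸ C.l₁_sub C.a₁), heq, s, hs, heq.symm, ?_⟩
  exact hπ.special_nontrivial hs hD


end Pool.Agent.H15.ProjRect
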